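import Pool.Agent.Lib.MP_2f350e_nt.Main

/-! For every modulus `W` and class `a`, for almost all `n` some odd prime `p < 2 n` has
`Q((p-1)/2 * n)` congruent to `a` modulo `W`. -/

namespace Pool.Agent.Results.MP_2f350e_nt.AnyResidue

open Finset Filter Topology Classical

theorem result (W a : ℕ) (hW : 0 < W) :
    Tendsto (fun N : ℕ => ((((range N).filter fun n => ∃ p : ℕ, p.Prime ∧ Odd p ∧ p < 2 * n ∧
      ((Icc 1 ((p - 1) / 2 * n)).filter Squarefree).card ≡ a [MOD W]).card : ℕ) : ℝ) / N)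
      atTop (𝓝 1) := by
  rw [Metric.tendsto_nhds]
  intro ε hε
  filter_upwards [Pool.Agent.Lib.MP_2f350e_nt.bad_small W a hW (ε / 2) (by positivity),
    eventually_ge_atTop 1] with N h1 h2
  have N0 : (0 : ℝ) < N := by exact_mod_cast h2
  have s0 := card_filter_add_card_filter_not (s := range N)
    (fun n => ∃ p : ℕ, p.Prime ∧ Odd p ∧ p < 2 * n ∧
      ((Icc 1 ((p - 1) / 2 * n)).filter Squarefree).card ≡ a [MOD W])
  rw [card_range] at s0
  unfold Pool.Agent.Lib.MP_2f350e_nt.QQ at h1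
  set A := ((range N).filter fun n => ∃ p : ℕ, p.Prime ∧ Odd p ∧ p < 2 * n ∧
      ((Icc 1 ((p - 1) / 2 * n)).filter Squarefree).card ≡ a [MOD W]).card with hA
  set B := ((range N).filter fun n => ¬ ∃ p : ℕ, p.Prime ∧ Odd p ∧ p < 2 * n ∧
      ((Icc 1 ((p - 1) / 2 * n)).filter Squarefree).card ≡ a [MOD W]).card with hB
  have s1 : (A : ℝ) + B = N := by exact_mod_cast s0
  have s2 : (0 : ℝ) ≤ B := Nat.cast_nonneg _
  have s3 : (A : ℝ) / N - 1 = -(B / N) := by field_simp; linarith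
  rw [Real.dist_eq, s3, abs_neg, abs_of_nonneg (by positivity), div_lt_iff₀ N0]
  have s4 : (B : ℝ) ≤ N * (ε / 2) := by convert h1
  nlinarith

end Pool.Agent.Results.MP_2f350e_nt.AnyResidue
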